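import Mathlib

/-!
# Flows on multigraphs: even sets of edges carry integer flows with values `±1`

Tools for the hand-in on `MP_12428a_co`: a multigraph is given by `src tgt : E → V`.
-/

set_option autoImplicit false
set_option linter.unusedSectionVars false

namespace Pool.Agent.R375.Flow

open Finset

/-! ### Fixed point free involutions -/

section Involutions

variable {H : Type} [Fintype H]

lemma exists_involution (h : Even (Fintype.card H)) :
    ∃ a : H → H, (∀ x, a (a x) = x) ∧ ∀ x, a x ≠ x := by
  classical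
  obtain ⟨k, hk⟩ := h
  have e : H ≃ Fin k ⊕ Fin k := Fintype.equivOfCardEq (by simp [hk])
  refine ⟨fun x => e.symm (Sum.swap (e x)), fun x => by simp, fun x hx => ?_⟩
  have h1 : Sum.swap (e x) = e x := by
    rw [Equiv.symm_apply_eq] at hx
    exact hx
  rcases h2 : e x with y | y <;> rw [h2] at h1 <;> simp at h1

/-- Two fixed point free involutions: there is a sign function changed by both. -/
lemma exists_sign (a b : H → H) (ha : ∀ x, a (a x) = x) (hb : ∀ x, b (b x) = x)
    (ha' : ∀ x, a x ≠ x) (hb' : ∀ x, b x ≠ x) :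
    ∃ s : H → ℤ, (∀ x, s x = 1 ∨ s x = -1) ∧ (∀ x, s (a x) = - s x) ∧ ∀ x, s (b x) = - s x := by
  classical
  let A : Equiv.Perm H := Function.Involutive.toPerm a ha
  let B : Equiv.Perm H := Function.Involutive.toPerm b hb
  have hA : ∀ x, A x = a x := fun _ => rfl
  have hB : ∀ x, B x = b x := fun _ => rfl
  have hAA : A * A = 1 := by
    ext x
    simp [hA, ha]
  have hBB : B * B = 1 := by
    ext x
    simp [hB, hb]
  have hAi : A⁻¹ = A := by
    rw [inv_eq_iff_mul_eq_one]
    exact hAA
  have hBi : B⁻¹ = B := by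
    rw [inv_eq_iff_mul_eq_one]
    exact hBB
  let G : Equiv.Perm H := A * B
  have hconj : ∀ j : ℤ, A * G ^ j = G ^ (-j) * A := by
    intro j
    have h1 : A * G * A⁻¹ = G⁻¹ := by
      show A * (A * B) * A⁻¹ = (A * B)⁻¹
      rw [← mul_assoc, hAA, one_mul, mul_inv_rev, hBi]
    have h2 : A * G ^ j * A⁻¹ = G ^ (-j) := by
      rw [← conj_zpow, h1, inv_zpow, zpow_neg]
    rw [← h2, inv_mul_cancel_right]
  have hno : ∀ x, ¬ Equiv.Perm.SameCycle G x (a x) := by
    rintro x ⟨k, hk⟩
    rcases Int.even_or_odd' k with ⟨j, hj | hj⟩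
    · apply ha' ((G ^ j) x)
      rw [← hA]
      have h1 : A ((G ^ j) x) = (A * G ^ j) x := rfl
      rw [h1, hconj, Equiv.Perm.mul_apply, hA, ← hk, ← Equiv.Perm.mul_apply, ← zpow_add]
      congr 2
      omega
    · apply hb' ((G ^ j) x)
      rw [← hB]
      have hBG : B = A * G := by
        show B = A * (A * B)
        rw [← mul_assoc, hAA, one_mul]
      have h1 : B ((G ^ j) x) = (A * G ^ (j + 1)) x := by
        rw [hBG, zpow_add_one, (Commute.zpow_self G j).eq]
        rfl
      rw [h1, hconj, Equiv.Perm.mul_apply, hA, ← hk, ← Equiv.Perm.mul_apply, ← zpow_add]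
      congr 2
      omega
  let st := Equiv.Perm.SameCycle.setoid G
  obtain ⟨f, hf⟩ : ∃ f : Quotient st → ℕ, Function.Injective f :=
    ⟨fun q => (Fintype.equivFin (Quotient st) q : ℕ),
      fun x y h => (Fintype.equivFin (Quotient st)).injective (Fin.ext h)⟩
  let c : H → ℕ := fun x => f (Quotient.mk st x)
  have hc1 : ∀ x y, Equiv.Perm.SameCycle G x y → c x = c y := by
    intro x y h
    show f _ = f _
    congr 1
    exact Quotient.sound h
  have hc2 : ∀ x, c x ≠ c (a x) := by
    intro x h
    exact hno x (Quotient.exact (hf h))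
  have hc3 : ∀ x, c (b x) = c (a x) := by
    intro x
    apply hc1
    refine ⟨1, ?_⟩
    rw [zpow_one]
    show a (b (b x)) = a x
    rw [hb]
  have hc4 : ∀ x, c (a (b x)) = c x := by
    intro x
    apply hc1
    refine ⟨-1, ?_⟩
    rw [zpow_neg_one, Equiv.Perm.inv_eq_iff_eq]
    rfl
  refine ⟨fun x => if c x < c (a x) then 1 else -1, fun x => ?_, fun x => ?_, fun x => ?_⟩
  · by_cases h : c x < c (a x)
    · exact Or.inl (if_pos h)
    · exact Or.inr (if_neg h)
  · have h := hc2 x
    simp only [ha]
    split_ifs <;> omega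
  · have h := hc2 x
    simp only [hc4, hc3]
    split_ifs <;> omega

end Involutions

/-! ### Even sets of edges carry flows with values `±1` -/

section Euler

variable {V E : Type} [Fintype V] [DecidableEq V] [Fintype E] [DecidableEq E]

/-- The net outflow at `v`, loops included (they cancel). -/
def net' {A : Type} [AddCommGroup A] (src tgt : E → V) (f : E → A) (v : V) : A :=
  ∑ e, ((if src e = v then f e else 0) - (if tgt e = v then f e else 0))

/-- The parity boundary. -/
def bd (src tgt : E → V) : (E → ZMod 2) →ₗ[ZMod 2] (V → ZMod 2) where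
  toFun f v := ∑ e, f e * ((if src e = v then 1 else 0) + (if tgt e = v then 1 else 0))
  map_add' f g := by
    ext v
    simp [add_mul, Finset.sum_add_distrib]
  map_smul' c f := by
    ext v
    simp [Finset.mul_sum, mul_assoc]

lemma bd_apply (src tgt : E → V) (f : E → ZMod 2) (v : V) :
    bd src tgt f v = ∑ e, f e * ((if src e = v then 1 else 0) + (if tgt e = v then 1 else 0)) := rfl

lemma zmod2 (a : ZMod 2) : a = 0 ∨ a = 1 := by
  revert a
  decide

/-- The endpoint of a half-edge. -/
def vert (src tgt : E → V) (h : E × Bool) : V := if h.2 then src h.1 else tgt h.1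

lemma even_fibre (src tgt : E → V) (f : E → ZMod 2) (v : V) (h : bd src tgt f v = 0) :
    Even (Fintype.card {h : {h : E × Bool // f h.1 = 1} // vert src tgt h.1 = v}) := by
  rw [← ZMod.natCast_eq_zero_iff_even, ← h, bd_apply]
  rw [Fintype.card_congr (Equiv.subtypeSubtypeEquivSubtypeInter (fun h : E × Bool => f h.1 = 1)
    (fun h => vert src tgt h = v)), Fintype.card_subtype, Finset.natCast_card_filter]
  rw [Fintype.sum_prod_type]
  apply Finset.sum_congr rfl
  intro e _
  rw [Fintype.sum_bool]
  rcases zmod2 (f e) with h0 | h0 <;> simp [h0, vert]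

/-- An even set of edges carries an integer flow with values `±1`. -/
lemma exists_flow (src tgt : E → V) (f : E → ZMod 2) (hf : bd src tgt f = 0) :
    ∃ g : E → ℤ, (∀ v, net' src tgt g v = 0) ∧ (∀ e, f e = 0 → g e = 0) ∧
      ∀ e, f e = 1 → (g e = 1 ∨ g e = -1) := by
  classical
  have hev : ∀ v, Even (Fintype.card {h : {h : E × Bool // f h.1 = 1} // vert src tgt h.1 = v}) :=
    fun v => even_fibre src tgt f v (by rw [hf]; rfl)
  choose a ha1 ha2 using fun v => exists_involution (hev v)
  let al : {h : E × Bool // f h.1 = 1} → {h : E × Bool // f h.1 = 1} :=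
    fun h => (a (vert src tgt h.1) ⟨h, rfl⟩).1
  have al_eq : ∀ v (y : {h : {h : E × Bool // f h.1 = 1} // vert src tgt h.1 = v}),
      al y.1 = (a v y).1 := by
    rintro v ⟨h, rfl⟩
    rfl
  have al_vert : ∀ h, vert src tgt (al h).1 = vert src tgt h.1 := by
    intro h
    exact (a (vert src tgt h.1) ⟨h, rfl⟩).2
  have al_inv : ∀ h, al (al h) = h := by
    intro h
    show al (a (vert src tgt h.1) ⟨h, rfl⟩).1 = h
    rw [al_eq, ha1]
  have al_ne : ∀ h, al h ≠ h := by
    intro h hh
    apply ha2 (vert src tgt h.1) ⟨h, rfl⟩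
    exact Subtype.ext hh
  let be : {h : E × Bool // f h.1 = 1} → {h : E × Bool // f h.1 = 1} :=
    fun h => ⟨(h.1.1, !h.1.2), h.2⟩
  have be_inv : ∀ h, be (be h) = h := by
    rintro ⟨⟨e, b⟩, h⟩
    simp [be]
  have be_ne : ∀ h, be h ≠ h := by
    rintro ⟨⟨e, b⟩, h⟩ hh
    have := congrArg (fun x : {h : E × Bool // f h.1 = 1} => x.1.2) hh
    simp [be] at this
  obtain ⟨s, hs1, hsa, hsb⟩ := exists_sign al be al_inv be_inv al_ne be_ne
  let S : E × Bool → ℤ := fun p => if h : f p.1 = 1 then s ⟨p, h⟩ else 0
  have hS : ∀ e, S (e, false) = - S (e, true) := by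
    intro e
    show (if h : f e = 1 then s ⟨(e, false), h⟩ else 0) = - (if h : f e = 1 then s ⟨(e, true), h⟩ else 0)
    by_cases h : f e = 1
    · rw [dif_pos h, dif_pos h, ← hsb]
      rfl
    · rw [dif_neg h, dif_neg h, neg_zero]
  refine ⟨fun e => S (e, true), fun v => ?_, fun e he => ?_, fun e he => ?_⟩
  · have h1 : net' src tgt (fun e => S (e, true)) v =
        ∑ p : E × Bool, if vert src tgt p = v then S p else 0 := by
      rw [Fintype.sum_prod_type]
      apply Finset.sum_congr rfl
      intro e _
      rw [Fintype.sum_bool, hS]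
      show (if src e = v then S (e, true) else 0) - (if tgt e = v then S (e, true) else 0) =
        (if src e = v then S (e, true) else 0) + (if tgt e = v then - S (e, true) else 0)
      split_ifs <;> ring
    rw [h1]
    refine Finset.sum_involution (fun p _ => if h : f p.1 = 1 then (al ⟨p, h⟩).1 else p) ?_ ?_
      (fun _ _ => Finset.mem_univ _) ?_
    · intro p _
      by_cases h : f p.1 = 1
      · rw [dif_pos h, al_vert]
        split_ifs with h2
        · show S p + S (al ⟨p, h⟩).1 = 0
          have e1 : S p = s ⟨p, h⟩ := dif_pos h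
          have e2 : S (al ⟨p, h⟩).1 = s (al ⟨p, h⟩) := dif_pos (al ⟨p, h⟩).2
          rw [e1, e2, hsa]
          ring
        · rfl
      · rw [dif_neg h]
        have e1 : S p = 0 := dif_neg h
        rw [e1]
        simp
    · intro p _ hp
      by_cases h : f p.1 = 1
      · rw [dif_pos h]
        intro hh
        exact al_ne ⟨p, h⟩ (Subtype.ext hh)
      · exfalso
        apply hp
        have e1 : S p = 0 := dif_neg h
        rw [e1]
        simp
    · intro p _
      by_cases h : f p.1 = 1
      · simp only [dif_pos h]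
        rw [dif_pos (al ⟨p, h⟩).2]
        exact congrArg Subtype.val (al_inv ⟨p, h⟩)
      · simp only [dif_neg h]
  · show (if h : f e = 1 then s ⟨(e, true), h⟩ else 0) = 0
    rw [dif_neg]
    rw [he]
    decide
  · show (if h : f e = 1 then s ⟨(e, true), h⟩ else 0) = 1 ∨
      (if h : f e = 1 then s ⟨(e, true), h⟩ else 0) = -1
    rw [dif_pos he]
    exact hs1 _

/-! ### `T`-joins by duality -/

lemma sum_mul_bd (src tgt : E → V) (f : E → ZMod 2) (X : V → ZMod 2) :
    ∑ v, X v * bd src tgt f v = ∑ e, f e * (X (src e) + X (tgt e)) := by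
  simp_rw [bd_apply, Finset.mul_sum]
  rw [Finset.sum_comm]
  apply Finset.sum_congr rfl
  intro e _
  simp_rw [mul_add, Finset.sum_add_distrib]
  simp
  ring

/-- If every set `X` of vertices not separated by the edges outside `P` contains an even number
of elements of `T`, then `T` is the parity boundary of a set of edges outside `P`. -/
lemma exists_join (src tgt : E → V) (P : E → Prop) (T : V → ZMod 2)
    (h : ∀ X : V → ZMod 2, (∀ e, ¬ P e → X (src e) = X (tgt e)) → ∑ v, X v * T v = 0) :
    ∃ J : E → ZMod 2, (∀ e, P e → J e = 0) ∧ bd src tgt J = T := by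
  classical
  let U : Submodule (ZMod 2) (E → ZMod 2) :=
    { carrier := {J | ∀ e, P e → J e = 0}
      add_mem' := by
        intro a b ha hb e he
        show a e + b e = 0
        rw [ha e he, hb e he, add_zero]
      zero_mem' := fun _ _ => rfl
      smul_mem' := by
        intro c a ha e he
        show c * a e = 0
        rw [ha e he, mul_zero] }
  by_contra hno
  have hT : T ∉ U.map (bd src tgt) := by
    rintro ⟨J, hJ, hJT⟩
    exact hno ⟨J, hJ, hJT⟩
  obtain ⟨g, hg1, hg2⟩ := Submodule.exists_dual_map_eq_bot_of_notMem hT inferInstance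
  let X : V → ZMod 2 := fun v => g (Pi.single v 1)
  have hgX : ∀ F : V → ZMod 2, g F = ∑ v, X v * F v := by
    intro F
    have h1 : F = ∑ v, F v • (Pi.single v (1 : ZMod 2) : V → ZMod 2) := by
      ext w
      simp [Finset.sum_apply, Pi.single_apply]
    conv_lhs => rw [h1]
    rw [map_sum]
    apply Finset.sum_congr rfl
    intro v _
    rw [map_smul, smul_eq_mul, mul_comm]
  have hU : ∀ J ∈ U, g (bd src tgt J) = 0 := by
    intro J hJ
    have : g (bd src tgt J) ∈ (U.map (bd src tgt)).map g := ⟨_, ⟨J, hJ, rfl⟩, rfl⟩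
    rw [hg2] at this
    exact this
  apply hg1
  rw [hgX]
  apply h
  intro e he
  have h1 : (Pi.single e (1 : ZMod 2) : E → ZMod 2) ∈ U := by
    intro e' he'
    rw [Pi.single_apply, if_neg]
    rintro rfl
    exact he he'
  have h2 := hU _ h1
  rw [hgX, sum_mul_bd] at h2
  simp [Pi.single_apply] at h2
  rcases zmod2 (X (src e)) with h3 | h3 <;> rcases zmod2 (X (tgt e)) with h4 | h4 <;>
    rw [h3, h4] at h2 ⊢ <;> revert h2 <;> decide

/-- Two even sets of edges covering all edges give a nowhere-zero `4`-flow. -/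
lemma four_flow (src tgt : E → V) (A B : E → ZMod 2) (hA : bd src tgt A = 0)
    (hB : bd src tgt B = 0) (h : ∀ e, A e = 1 ∨ B e = 1) :
    ∃ g : E → ℤ, (∀ v, net' src tgt g v = 0) ∧ ∀ e, 0 < |g e| ∧ |g e| < 4 := by
  obtain ⟨a, ha1, ha2, ha3⟩ := exists_flow src tgt A hA
  obtain ⟨b, hb1, hb2, hb3⟩ := exists_flow src tgt B hB
  refine ⟨fun e => a e + 2 * b e, fun v => ?_, fun e => ?_⟩
  · have h1 : net' src tgt (fun e => a e + 2 * b e) v = net' src tgt a v + 2 * net' src tgt b v := by
      rw [net', net', net', Finset.mul_sum, ← Finset.sum_add_distrib]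
      apply Finset.sum_congr rfl
      intro e _
      split_ifs <;> ring
    rw [h1, ha1, hb1]
    norm_num
  · have h1 := h e
    show 0 < |a e + 2 * b e| ∧ |a e + 2 * b e| < 4
    rcases zmod2 (A e) with hA' | hA' <;> rcases zmod2 (B e) with hB' | hB'
    · rw [hA', hB'] at h1
      exact absurd h1 (by decide)
    · rw [ha2 e hA']
      rcases hb3 e hB' with hb | hb <;> rw [hb] <;> norm_num
    · rw [hb2 e hB']
      rcases ha3 e hA' with ha | ha <;> rw [ha] <;> norm_num
    · rcases ha3 e hA' with ha | ha <;> rcases hb3 e hB' with hb | hb <;> rw [ha, hb] <;> norm_num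

end Euler

end Pool.Agent.R375.Flow
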