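import Pool.Agent.R499.HT.Stm

/-!
Project HT: the sum of the fourth powers of the central binomial probabilities.
-/

set_option autoImplicit false

namespace Pool.Agent.R375.HTBin

open Pool.Agent.R499.HT

noncomputable def a (k : ℕ) : ℝ := (Nat.centralBinom k : ℝ) / 4 ^ k

lemma a_pos (k : ℕ) : 0 < a k := by
  unfold a
  have := Nat.centralBinom_pos k
  positivity

lemma a_succ (k : ℕ) : a (k + 1) = a k * ((2 * k + 1) / (2 * k + 2)) := by
  have h := Nat.succ_mul_centralBinom_succ k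
  have h' : ((k : ℝ) + 1) * (Nat.centralBinom (k + 1) : ℝ) =
      2 * (2 * k + 1) * (Nat.centralBinom k : ℝ) := by exact_mod_cast h
  have hk : (k : ℝ) + 1 ≠ 0 := by positivity
  have h2 : (Nat.centralBinom (k + 1) : ℝ) =
      2 * (2 * k + 1) * (Nat.centralBinom k : ℝ) / (k + 1) := by
    rw [eq_div_iff hk]
    linarith
  unfold a
  rw [h2, pow_succ]
  have h4 : (4 : ℝ) ^ k ≠ 0 := by positivity
  have h5 : (2 * (k : ℝ) + 2) ≠ 0 := by positivity
  field_simp
  ring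

lemma a_sq (k : ℕ) : a k ^ 2 * (2 * k + 1) ≤ 1 := by
  induction k with
  | zero => simp [a]
  | succ k ih =>
    rw [a_succ, mul_pow]
    push_cast
    have h1 : ((2 * (k : ℝ) + 1) / (2 * k + 2)) ^ 2 * (2 * (k + 1) + 1) ≤ 2 * k + 1 := by
      rw [div_pow, div_mul_eq_mul_div, div_le_iff₀ (by positivity)]
      have : (0 : ℝ) ≤ k := Nat.cast_nonneg k
      nlinarith
    calc a k ^ 2 * ((2 * (k : ℝ) + 1) / (2 * k + 2)) ^ 2 * (2 * (k + 1) + 1)
        = a k ^ 2 * (((2 * (k : ℝ) + 1) / (2 * k + 2)) ^ 2 * (2 * (k + 1) + 1)) := by ring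
      _ ≤ a k ^ 2 * (2 * k + 1) := mul_le_mul_of_nonneg_left h1 (sq_nonneg _)
      _ ≤ 1 := ih

lemma a_four (k : ℕ) : a (k + 1) ^ 4 ≤ 1 / 4 * (1 / ((k : ℝ) + 1) - 1 / ((k : ℝ) + 2)) := by
  have h1 := a_sq (k + 1)
  push_cast at h1
  have h0 : (0 : ℝ) ≤ k := Nat.cast_nonneg k
  have h2 : a (k + 1) ^ 2 ≤ 1 / (2 * k + 3) := by
    rw [le_div_iff₀ (by positivity)]
    linarith
  have h3 : a (k + 1) ^ 4 ≤ (1 / (2 * (k : ℝ) + 3)) ^ 2 := by
    calc a (k + 1) ^ 4 = (a (k + 1) ^ 2) ^ 2 := by ring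
      _ ≤ _ := pow_le_pow_left₀ (sq_nonneg _) h2 2
  refine h3.trans ?_
  have h4 : 1 / 4 * (1 / ((k : ℝ) + 1) - 1 / ((k : ℝ) + 2)) = 1 / (4 * ((k + 1) * (k + 2))) := by
    field_simp
    ring
  rw [h4, one_div_pow]
  apply one_div_le_one_div_of_le (by positivity)
  nlinarith

theorem main : S_BIN := by
  intro n
  have key : ∑ k ∈ Finset.range n, ((Nat.centralBinom (k + 1) : ℝ) / 4 ^ (k + 1)) ^ 4 ≤
      1 / 4 * (1 - 1 / ((n : ℝ) + 1)) := by
    induction n with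
    | zero => simp
    | succ n ih =>
      rw [Finset.sum_range_succ]
      have h := a_four n
      unfold a at h
      push_cast
      have e : (n : ℝ) + 1 + 1 = n + 2 := by ring
      rw [e]
      linarith
  refine key.trans ?_
  have : (0 : ℝ) ≤ 1 / ((n : ℝ) + 1) := by positivity
  linarith

end Pool.Agent.R375.HTBin
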